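import Mathlib

/-!
Unary algebras with four operations: parent `up`, first child `dn`, next sibling `nx` and
previous sibling `pv`.  Normal forms of terms.
-/

set_option autoImplicit false

namespace Pool.Agent.Lib.MP_c850b7_lc

open FirstOrder FirstOrder.Language

/-- The signature with four unary operations. -/
def LL : FirstOrder.Language.{0, 0} where
  Functions n := {_o : Fin 4 // n = 1}
  Relations _ := Empty

/-- The basic operations. -/
def op {M : Type} [LL.Structure M] (o : Fin 4) (x : M) : M :=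
  Structure.funMap (L := LL) (n := 1) ⟨o, rfl⟩ (fun _ => x)

/-- Parent. -/
def up {M : Type} [LL.Structure M] (x : M) : M := op 0 x

/-- First child. -/
def dn {M : Type} [LL.Structure M] (x : M) : M := op 1 x

/-- Next sibling. -/
def nx {M : Type} [LL.Structure M] (x : M) : M := op 2 x

/-- Previous sibling. -/
def pv {M : Type} [LL.Structure M] (x : M) : M := op 3 x

/-- The universal theory of the trees we use. -/
class Good (M : Type) [LL.Structure M] : Prop where
  ne : Nonempty M
  up_dn : ∀ x : M, up (dn x) = x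
  up_nx : ∀ x : M, up (nx x) = up x
  nx_pv : ∀ x : M, nx (pv x) = x
  pv_nx : ∀ x : M, pv (nx x) = x
  nx_free : ∀ (n : ℕ) (x : M), nx^[n + 1] x ≠ x
  up_free : ∀ (n : ℕ) (x : M), up^[n + 1] x ≠ x

variable {M N : Type} [LL.Structure M] [LL.Structure N] [Good M] [Good N]

/-- The sibling shift as a permutation. -/
def HH (M : Type) [LL.Structure M] [Good M] : Equiv.Perm M :=
  ⟨nx, pv, Good.pv_nx, Good.nx_pv⟩

/-- Shift by an integer along the siblings. -/
def sh (j : ℤ) (x : M) : M := (HH M ^ j) x

theorem sh_zero (x : M) : sh 0 x = x := by simp [sh]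

theorem sh_add (i j : ℤ) (x : M) : sh (i + j) x = sh i (sh j x) := by
  simp [sh, zpow_add]

theorem sh_one (x : M) : sh 1 x = nx x := by
  simp only [sh, zpow_one]
  rfl

theorem sh_neg_one (x : M) : sh (-1) x = pv x := by
  simp only [sh, zpow_neg, zpow_one]
  rfl

theorem up_pv (x : M) : up (pv x) = up x := by
  rw [← Good.up_nx (pv x), Good.nx_pv]

theorem up_sh (j : ℤ) (x : M) : up (sh j x) = up x := by
  induction j using Int.induction_on with
  | zero => rw [sh_zero]
  | succ i ih => rw [add_comm, sh_add, sh_one, Good.up_nx, ih]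
  | pred i ih => rw [sub_eq_neg_add, sh_add, sh_neg_one, up_pv, ih]

theorem sh_neg_sh (j : ℤ) (x : M) : sh (-j) (sh j x) = x := by
  rw [← sh_add, neg_add_cancel, sh_zero]

theorem sh_nat (n : ℕ) (x : M) : sh (n : ℤ) x = nx^[n] x := by
  induction n with
  | zero => simp [sh_zero]
  | succ n ih => rw [Nat.cast_succ, add_comm, sh_add, sh_one, ih, Function.iterate_succ_apply']

theorem sh_fix {j : ℤ} {x : M} (h : sh j x = x) : j = 0 := by
  have key : ∀ (n : ℕ) (y : M), sh (n : ℤ) y = y → n = 0 := by
    intro n y hy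
    rcases n with _ | n
    · rfl
    · rw [sh_nat] at hy
      exact absurd hy (Good.nx_free n y)
  rcases le_total 0 j with h0 | h0
  · obtain ⟨n, rfl⟩ := Int.eq_ofNat_of_zero_le h0
    rw [key n x h]
    rfl
  · obtain ⟨n, hn⟩ := Int.eq_ofNat_of_zero_le (neg_nonneg.mpr h0)
    have : sh (n : ℤ) x = x := by
      rw [← hn]
      conv_lhs => rw [← h]
      exact sh_neg_sh j x
    have := key n x this
    omega

theorem sh_inj {i j : ℤ} {x : M} (h : sh i x = sh j x) : i = j := by
  have : sh (-j + i) x = x := by rw [sh_add, h, sh_neg_sh]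
  have := sh_fix this
  omega

theorem up_iter_inj {k l : ℕ} {x : M} (h : up^[k] x = up^[l] x) : k = l := by
  have key : ∀ k l : ℕ, k < l → up^[k] x ≠ up^[l] x := by
    intro k l hkl h
    obtain ⟨d, rfl⟩ := Nat.exists_eq_add_of_lt hkl
    rw [show k + d + 1 = (d + 1) + k by ring, Function.iterate_add_apply] at h
    exact Good.up_free d _ h.symm
  rcases lt_trichotomy k l with h1 | h1 | h1
  · exact absurd h (key k l h1)
  · exact h1
  · exact absurd h.symm (key l k h1)

theorem infinite_of_good : Infinite M := by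
  obtain ⟨x⟩ := Good.ne (M := M)
  exact Infinite.of_injective (fun k : ℕ => up^[k] x) fun k l h => up_iter_inj h

/-- Descend along named children. -/
def desc : List ℤ → M → M
  | [], y => y
  | i :: D, y => sh i (dn (desc D y))

theorem desc_append (D D' : List ℤ) (y : M) : desc (D ++ D') y = desc D (desc D' y) := by
  induction D with
  | nil => rfl
  | cons i D ih => simp only [List.cons_append, desc, ih]

theorem up_desc_cons (i : ℤ) (D : List ℤ) (y : M) : up (desc (i :: D) y) = desc D y := by
  rw [desc, up_sh, Good.up_dn]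

theorem up_iter_desc (D : List ℤ) (y : M) : up^[D.length] (desc D y) = y := by
  induction D with
  | nil => rfl
  | cons i D ih => rw [List.length_cons, Function.iterate_succ_apply, up_desc_cons, ih]

theorem desc_cons_inj {i i' : ℤ} {D D' : List ℤ} {y y' : M}
    (h : desc (i :: D) y = desc (i' :: D') y') : i = i' ∧ desc D y = desc D' y' := by
  have h1 : desc D y = desc D' y' := by
    have := congrArg up h
    rwa [up_desc_cons, up_desc_cons] at this
  refine ⟨?_, h1⟩
  simp only [desc] at h
  rw [h1] at h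
  exact sh_inj h

/-- Normal forms of terms in one variable. -/
abbrev NF : Type := ℕ × ℤ × List ℤ

/-- Evaluation of a normal form. -/
def ev (ν : NF) (x : M) : M := desc ν.2.2 (sh ν.2.1 (up^[ν.1] x))

/-- Parent, on normal forms. -/
def upN : NF → NF
  | (k, _, []) => (k + 1, 0, [])
  | (k, j, _ :: D) => (k, j, D)

/-- Shift, on normal forms. -/
def shN (e : ℤ) : NF → NF
  | (k, j, []) => (k, e + j, [])
  | (k, j, i :: D) => (k, j, (e + i) :: D)

/-- First child, on normal forms. -/
def dnN (ν : NF) : NF := (ν.1, ν.2.1, 0 :: ν.2.2)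

theorem ev_upN (ν : NF) (x : M) : ev (upN ν) x = up (ev ν x) := by
  rcases ν with ⟨k, j, _ | ⟨i, D⟩⟩
  · simp only [upN, ev, desc, sh_zero, up_sh, Function.iterate_succ_apply']
  · simp only [upN, ev, up_desc_cons]

theorem ev_shN (e : ℤ) (ν : NF) (x : M) : ev (shN e ν) x = sh e (ev ν x) := by
  rcases ν with ⟨k, j, _ | ⟨i, D⟩⟩
  · simp only [shN, ev, desc, sh_add]
  · simp only [shN, ev, desc, sh_add]

theorem ev_dnN (ν : NF) (x : M) : ev (dnN ν) x = dn (ev ν x) := by
  simp only [dnN, ev, desc, sh_zero]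

theorem ev_upN_iter (k : ℕ) (ν : NF) (x : M) : ev (upN^[k] ν) x = up^[k] (ev ν x) := by
  induction k with
  | zero => rfl
  | succ k ih => rw [Function.iterate_succ_apply', Function.iterate_succ_apply', ev_upN, ih]

/-- Composition of normal forms. -/
def comp (μ ν : NF) : NF :=
  ((shN μ.2.1 (upN^[μ.1] ν)).1, (shN μ.2.1 (upN^[μ.1] ν)).2.1,
    μ.2.2 ++ (shN μ.2.1 (upN^[μ.1] ν)).2.2)

theorem ev_comp (μ ν : NF) (x : M) : ev (comp μ ν) x = ev μ (ev ν x) := by
  have h := ev_shN μ.2.1 (upN^[μ.1] ν) x
  rw [ev_upN_iter] at h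
  conv_rhs => rw [ev, ← h]
  simp only [comp, ev, desc_append]

theorem ev_id (x : M) : ev (0, 0, []) x = x := by
  simp [ev, desc, sh_zero]

/-- A basic operation, on normal forms. -/
def opN (o : Fin 4) (ν : NF) : NF :=
  match o with
  | 0 => upN ν
  | 1 => dnN ν
  | 2 => shN 1 ν
  | 3 => shN (-1) ν

theorem ev_opN (o : Fin 4) (ν : NF) (x : M) : ev (opN o ν) x = op o (ev ν x) := by
  match o with
  | 0 => exact ev_upN ν x
  | 1 => exact ev_dnN ν x
  | 2 => exact (ev_shN 1 ν x).trans (sh_one _)
  | 3 => exact (ev_shN (-1) ν x).trans (sh_neg_one _)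

omit [Good M] in
theorem funMap_eq {n : ℕ} (f : LL.Functions n) (x : Fin n → M) :
    Structure.funMap f x = op f.1 (x ⟨0, by have := f.2; omega⟩) := by
  obtain ⟨o, rfl⟩ := f
  unfold op
  congr 1
  funext i
  rw [Subsingleton.elim i ⟨0, _⟩]

theorem term_nf {α : Type} (t : LL.Term α) : ∃ (i : α) (ν : NF),
    (∀ v : α → M, t.realize v = ev ν (v i)) ∧ (∀ w : α → N, t.realize w = ev ν (w i)) := by
  induction t with
  | var a => exact ⟨a, (0, 0, []), fun v => (ev_id _).symm, fun w => (ev_id _).symm⟩
  | func f ts ih =>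
    obtain ⟨i, ν, h1, h2⟩ := ih ⟨0, by have := f.2; omega⟩
    refine ⟨i, opN f.1 ν, fun v => ?_, fun w => ?_⟩
    · rw [Term.realize, funMap_eq, h1, ev_opN]
    · rw [Term.realize, funMap_eq, h2, ev_opN]

/-- A map that commutes with the basic operations commutes with normal forms. -/
theorem ev_comm {κ : Type} (Φ : (κ → M) → N)
    (hΦ : ∀ (o : Fin 4) (m : κ → M), Φ (fun k => op o (m k)) = op o (Φ m)) (ν : NF) (m : κ → M) :
    Φ (fun k => ev ν (m k)) = ev ν (Φ m) := by
  have h1 : ∀ (n : ℕ) (m : κ → M), Φ (fun k => up^[n] (m k)) = up^[n] (Φ m) := by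
    intro n m
    induction n with
    | zero => rfl
    | succ n ih =>
      simp only [Function.iterate_succ_apply']
      rw [← ih]
      exact hΦ 0 _
  have h2 : ∀ (j : ℤ) (m : κ → M), Φ (fun k => sh j (m k)) = sh j (Φ m) := by
    intro j m
    induction j using Int.induction_on with
    | zero => simp only [sh_zero]
    | succ i ih =>
      simp only [add_comm (i : ℤ) 1, sh_add, sh_one]
      rw [← ih]
      exact hΦ 2 _
    | pred i ih =>
      simp only [sub_eq_neg_add, sh_add, sh_neg_one]
      rw [← ih]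
      exact hΦ 3 _
  have h3 : ∀ (D : List ℤ) (m : κ → M), Φ (fun k => desc D (m k)) = desc D (Φ m) := by
    intro D m
    induction D with
    | nil => rfl
    | cons i D ih =>
      simp only [desc]
      rw [h2, ← ih]
      congr 1
      exact hΦ 1 _
  unfold ev
  rw [h3, h2, h1]

theorem ev_map (d : M → N) (hd : ∀ (o : Fin 4) (x : M), d (op o x) = op o (d x)) (ν : NF)
    (x : M) : d (ev ν x) = ev ν (d x) :=
  ev_comm (κ := Unit) (fun m => d (m ())) (fun o m => hd o (m ())) ν (fun _ => x)

end Pool.Agent.Lib.MP_c850b7_lc
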