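import Mathlib
import Pool.Agent.Lib.MP_c850b7_lc.Basic

/-!
Equality of atomic types, and the three ways of extending a pair of tuples with equal atomic types.
-/

set_option autoImplicit false

namespace Pool.Agent.Lib.MP_c850b7_lc

open FirstOrder FirstOrder.Language

variable {M N : Type} [LL.Structure M] [LL.Structure N] [Good M] [Good N] {ι : Type}

/-- The two families satisfy the same equations. -/
def Rel (a : ι → M) (b : ι → N) : Prop :=
  ∀ (i i' : ι) (ν ν' : NF), ev ν (a i) = ev ν' (a i') ↔ ev ν (b i) = ev ν' (b i')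

/-- Membership in the subalgebra generated by a family. -/
def Gen (a : ι → M) (x : M) : Prop := ∃ (i : ι) (ν : NF), x = ev ν (a i)

/-- Adding one element to a family. -/
def ext {X : Type} (m : X) (a : ι → X) : Option ι → X
  | none => m
  | some i => a i

theorem Rel.symm {a : ι → M} {b : ι → N} (h : Rel a b) : Rel b a :=
  fun i i' ν ν' => (h i i' ν ν').symm

theorem Rel.reindex {κ : Type} {a : ι → M} {b : ι → N} (h : Rel a b) (r : κ → ι) :
    Rel (a ∘ r) (b ∘ r) :=
  fun i i' ν ν' => h (r i) (r i') ν ν'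

theorem Gen.ev {a : ι → M} {x : M} (h : Gen a x) (μ : NF) : Gen a (ev μ x) := by
  obtain ⟨i, ν, rfl⟩ := h
  exact ⟨i, comp μ ν, (ev_comp μ ν _).symm⟩

theorem Gen.up_iter {a : ι → M} {x : M} (h : Gen a x) (k : ℕ) : Gen a (up^[k] x) := by
  have := h.ev (k, 0, [])
  simpa [Pool.Agent.Lib.MP_c850b7_lc.ev, desc, sh_zero] using this

theorem Gen.sh {a : ι → M} {x : M} (h : Gen a x) (j : ℤ) : Gen a (sh j x) := by
  have := h.ev (0, j, [])
  simpa [Pool.Agent.Lib.MP_c850b7_lc.ev, desc] using this

theorem extA {a : ι → M} {b : ι → N} (h : Rel a b) (i : ι) (ρ : NF) :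
    Rel (ext (ev ρ (a i)) a) (ext (ev ρ (b i)) b) := by
  rintro (_ | j) (_ | j') ν ν' <;> simp only [ext, ← ev_comp] <;> exact h _ _ _ _

theorem ev_succ (k : ℕ) (j : ℤ) (D : List ℤ) (x : M) :
    ev (k + 1, j, D) x = ev (k, j, D) (up x) := by
  simp only [ev, Function.iterate_succ_apply]

theorem not_gen_zero {a : ι → M} {m : M} (hm : ¬ Gen a m) (j : ℤ) (D : List ℤ) :
    ¬ Gen a (ev (0, j, D) m) := by
  intro h
  apply hm
  have h1 := (h.up_iter D.length).sh (-j)
  simp only [ev, up_iter_desc, Function.iterate_zero, id, sh_neg_sh] at h1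
  exact h1

theorem desc_sh_inj {D D' : List ℤ} {j j' : ℤ} {m : M}
    (h : desc D (sh j m) = desc D' (sh j' m)) : D = D' ∧ j = j' := by
  have key : ∀ (i : ℤ) (E : List ℤ) (e e' : ℤ), sh e m ≠ desc (i :: E) (sh e' m) := by
    intro i E e e' h
    have h1 := congrArg (up^[(i :: E).length + 1]) h
    rw [Function.iterate_succ_apply, up_sh, ← Function.iterate_succ_apply,
      Function.iterate_succ_apply' (n := (i :: E).length) (x := desc _ _), up_iter_desc,
      up_sh] at h1
    have h2 : up^[(i :: E).length + 1] m = up^[1] m := h1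
    have := up_iter_inj h2
    simp at this
  induction D generalizing D' with
  | nil =>
    rcases D' with _ | ⟨i, E⟩
    · exact ⟨rfl, sh_inj h⟩
    · exact absurd h (key _ _ _ _)
  | cons i E ih =>
    rcases D' with _ | ⟨i', E'⟩
    · exact absurd h.symm (key _ _ _ _)
    · obtain ⟨h1, h2⟩ := desc_cons_inj h
      obtain ⟨h3, h4⟩ := ih h2
      exact ⟨by rw [h1, h3], h4⟩

theorem extB {a : ι → M} {b : ι → N} (h : Rel a b) (i : ι) {m : M} {n : N} (h1 : up m = a i)
    (h2 : up n = b i) (hm : ¬ Gen a m) (hn : ¬ Gen b n) : Rel (ext m a) (ext n b) := by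
  have mixed : ∀ (ν ν' : NF) (j : ι), ev ν m = ev ν' (a j) ↔ ev ν n = ev ν' (b j) := by
    rintro ⟨_ | k, e, D⟩ ν' j
    · exact iff_of_false (fun h => not_gen_zero hm e D ⟨_, _, h⟩)
        (fun h => not_gen_zero hn e D ⟨_, _, h⟩)
    · rw [ev_succ, ev_succ, h1, h2]
      exact h _ _ _ _
  rintro (_ | j) (_ | j') ν ν' <;> simp only [ext]
  · rcases ν' with ⟨_ | k', e', D'⟩
    · rcases ν with ⟨_ | k, e, D⟩
      · constructor
        · intro h3
          obtain ⟨h4, h5⟩ := desc_sh_inj h3
          simp only [] at h4 h5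
          rw [h4, h5]
        · intro h3
          obtain ⟨h4, h5⟩ := desc_sh_inj h3
          simp only [] at h4 h5
          rw [h4, h5]
      · rw [ev_succ, ev_succ, h1, h2, eq_comm, eq_comm (a := ev _ (b i))]
        exact mixed _ _ _
    · rw [ev_succ, ev_succ, h1, h2]
      exact mixed _ _ _
  · exact mixed _ _ _
  · rw [eq_comm, eq_comm (a := ev _ (b j))]
    exact mixed _ _ _
  · exact h _ _ _ _

/-- The ancestor of height `e` of `x` is the named child with index `j`. -/
def Nm (e : ℕ) (j : ℤ) (x : M) : Prop := up^[e] x = sh j (dn (up^[e + 1] x))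

theorem self_transfer {m : M} {n : N} (hs : ∀ e j, Nm e j m → Nm e j n) (ν ν' : NF)
    (h : ev ν m = ev ν' m) : ev ν n = ev ν' n := by
  have base : ∀ (D' : List ℤ) (k k' : ℕ) (j j' : ℤ),
      sh j (up^[k] m) = desc D' (sh j' (up^[k'] m)) →
      sh j (up^[k] n) = desc D' (sh j' (up^[k'] n)) := by
    intro D'
    induction D' with
    | nil =>
      intro k k' j j' h
      have h1 := congrArg up h
      simp only [desc, up_sh] at h1 h
      rw [← Function.iterate_succ_apply' up, ← Function.iterate_succ_apply' up] at h1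
      have h2 : k = k' := by
        have := up_iter_inj h1
        omega
      subst h2
      rw [sh_inj h]
      rfl
    | cons i E ih =>
      intro k k' j j' h
      have h1 := congrArg up h
      rw [up_sh, up_desc_cons, ← Function.iterate_succ_apply' up] at h1
      have h2 := ih (k + 1) k' 0 j' (by rw [sh_zero]; exact h1)
      rw [sh_zero] at h2
      have h3 : Nm k (-j + i) m := by
        unfold Nm
        rw [sh_add]
        have h4 : up^[k + 1] m = desc E (sh j' (up^[k'] m)) := h1
        rw [h4]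
        simp only [desc] at h
        rw [← h, sh_neg_sh]
      have h5 := hs _ _ h3
      unfold Nm at h5
      simp only [desc]
      rw [← h2]
      conv_lhs => rw [h5]
      rw [← sh_add]
      congr 1
      ring
  rcases ν with ⟨k, j, D⟩
  rcases ν' with ⟨k', j', D'⟩
  simp only [ev] at h ⊢
  induction D generalizing D' with
  | nil => exact base _ _ _ _ _ h
  | cons i E ih =>
    rcases D' with _ | ⟨i', E'⟩
    · exact (base _ _ _ _ _ h.symm).symm
    · obtain ⟨h1, h2⟩ := desc_cons_inj h
      simp only [desc]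
      rw [h1, ih _ h2]

theorem not_gen_far {a : ι → M} {m : M} (hm : ∀ e, ¬ Gen a (up^[e] m)) (ν : NF) :
    ¬ Gen a (ev ν m) := by
  intro h
  apply hm (ν.1 + 1)
  have h1 := (h.up_iter ν.2.2.length).up_iter 1
  simp only [ev, up_iter_desc, Function.iterate_one, up_sh] at h1
  rw [Function.iterate_succ_apply']
  exact h1

theorem extC {a : ι → M} {b : ι → N} (h : Rel a b) {m : M} {n : N}
    (hm : ∀ e, ¬ Gen a (up^[e] m)) (hn : ∀ e, ¬ Gen b (up^[e] n))
    (hs : ∀ e j, Nm e j m ↔ Nm e j n) : Rel (ext m a) (ext n b) := by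
  rintro (_ | j) (_ | j') ν ν' <;> simp only [ext]
  · exact ⟨self_transfer (fun e j => (hs e j).mp) _ _, self_transfer (fun e j => (hs e j).mpr) _ _⟩
  · exact iff_of_false (fun h => not_gen_far hm ν ⟨_, _, h⟩) (fun h => not_gen_far hn ν ⟨_, _, h⟩)
  · exact iff_of_false (fun h => not_gen_far hm ν' ⟨_, _, h.symm⟩)
      (fun h => not_gen_far hn ν' ⟨_, _, h.symm⟩)
  · exact h _ _ _ _

end Pool.Agent.Lib.MP_c850b7_lc
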