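import Pool.Agent.Lib.MP_c850b7_lc.H92Ring

/-!
The variety of left modules over Cohn's ring in a finite signature: its free algebras of finite
positive rank realise the same types and are pairwise not isomorphic.
-/

set_option autoImplicit false

namespace Pool.Agent.Lib.MP_c850b7_lc.H92

open FirstOrder FirstOrder.Language FirstOrder.Language.Structure MulOpposite

inductive Fn : ℕ → Type
  | zero : Fn 0
  | neg : Fn 1
  | act (g : Gen) : Fn 1
  | add : Fn 2

def LM : FirstOrder.Language.{0, 0} := ⟨Fn, fun _ => Empty⟩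

theorem LM_algebraic : LM.IsAlgebraic := fun _ => ⟨fun r => Empty.elim r⟩

theorem LM_finite : Finite LM.Symbols := by
  let f : Option (Option (Option Gen)) → LM.Symbols := fun o =>
    match o with
    | none => Sum.inl ⟨0, Fn.zero⟩
    | some none => Sum.inl ⟨1, Fn.neg⟩
    | some (some none) => Sum.inl ⟨2, Fn.add⟩
    | some (some (some g)) => Sum.inl ⟨1, Fn.act g⟩
  refine Finite.of_surjective f ?_
  rintro (⟨_, _ | _ | g | _⟩ | ⟨_, r⟩)
  · exact ⟨none, rfl⟩
  · exact ⟨some none, rfl⟩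
  · exact ⟨some (some (some g)), rfl⟩
  · exact ⟨some (some none), rfl⟩
  · exact r.elim

def fz : LM.Constants := Fn.zero
def fn : LM.Functions 1 := Fn.neg
def fa (g : Gen) : LM.Functions 1 := Fn.act g
def fp : LM.Functions 2 := Fn.add

/-- The operations of the structure are those of the module. -/
structure Compat (M : Type) [AddCommGroup M] [Module R M] [LM.Structure M] : Prop where
  z : ∀ v, funMap (M := M) fz v = 0
  n : ∀ v, funMap (M := M) fn v = -v 0
  a : ∀ g v, funMap (M := M) (fa g) v = gen g • v 0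
  p : ∀ v, funMap (M := M) fp v = v 0 + v 1

@[reducible] noncomputable def str (M : Type) [AddCommGroup M] [Module R M] : LM.Structure M where
  funMap := fun {_} f v =>
    match f, v with
    | Fn.zero, _ => 0
    | Fn.neg, v => -v 0
    | Fn.act g, v => gen g • v 0
    | Fn.add, v => v 0 + v 1
  RelMap := fun {_} r _ => r.elim

/-- The free module of rank `k`. -/
def W (k : ℕ) : Type := Fin k → R

noncomputable instance (k : ℕ) : AddCommGroup (W k) := inferInstanceAs (AddCommGroup (Fin k → R))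
noncomputable instance (k : ℕ) : Module R (W k) := inferInstanceAs (Module R (Fin k → R))
noncomputable instance (k : ℕ) : LM.Structure (W k) := str (W k)

theorem compat_W (k : ℕ) : Compat (W k) := ⟨fun _ => rfl, fun _ => rfl, fun _ _ => rfl, fun _ => rfl⟩

noncomputable def bas (k : ℕ) (i : Fin k) : W k := (Pi.single i 1 : Fin k → R)

section
variable {M N : Type} [AddCommGroup M] [Module R M] [LM.Structure M]
  [AddCommGroup N] [Module R N] [LM.Structure N]

noncomputable def homOf (hM : Compat M) (hN : Compat N) (f : M →ₗ[R] N) : M →[LM] N where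
  toFun := f
  map_fun' := fun {_} g v => by
    rcases g with _ | _ | g | _
    · exact (congrArg f (hM.z v)).trans ((map_zero f).trans (hN.z _).symm)
    · exact (congrArg f (hM.n v)).trans ((map_neg f _).trans (hN.n (f ∘ v)).symm)
    · exact (congrArg f (hM.a g v)).trans ((map_smul f _ _).trans (hN.a g (f ∘ v)).symm)
    · exact (congrArg f (hM.p v)).trans ((map_add f _ _).trans (hN.p (f ∘ v)).symm)
  map_rel' := fun {_} r => r.elim

theorem exists_lin (hM : Compat M) (hN : Compat N) (f : M →[LM] N) :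
    ∃ F : M →ₗ[R] N, ∀ x, F x = f x := by
  have h1 : ∀ x y, f (x + y) = f x + f y := fun x y => by
    have := f.map_fun fp ![x, y]
    rwa [hM.p, hN.p] at this
  let F₀ : M →+ N := AddMonoidHom.mk' f h1
  let T : AddSubgroup R :=
    { carrier := {r | ∀ x, F₀ (r • x) = r • F₀ x}
      zero_mem' := fun x => by simp
      add_mem' := fun {a b} ha hb x => by rw [add_smul, add_smul, map_add, ha, hb]
      neg_mem' := fun {a} ha x => by rw [neg_smul, neg_smul, map_neg, ha] }
  have h2 := R_ind T (fun x => by simp) fun g r hr x => by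
    have := f.map_fun (fa g) ![r • x]
    rw [hM.a, hN.a] at this
    rw [mul_smul, mul_smul, ← hr]
    exact this
  exact ⟨{ F₀ with map_smul' := fun r x => h2 r x }, fun _ => rfl⟩

end

theorem term_lin {β : Type} [Fintype β] [DecidableEq β] (t : LM.Term β) : ∃ ρ : β → R,
    ∀ (k : ℕ) (c : β → W k), t.realize c = ∑ i, ρ i • c i := by
  induction t with
  | var i => exact ⟨Pi.single i 1, fun k c => by simp [Pi.single_apply, ite_smul]⟩
  | func f ts ih =>
    choose ρ hρ using ih
    rcases f with _ | _ | g | _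
    · exact ⟨0, fun k c => ((compat_W k).z _).trans (by simp)⟩
    · exact ⟨-ρ 0, fun k c => ((compat_W k).n _).trans (by simp [hρ])⟩
    · exact ⟨gen g • ρ 0, fun k c => ((compat_W k).a g _).trans (by
        simp [hρ, Finset.smul_sum, mul_smul])⟩
    · exact ⟨ρ 0 + ρ 1, fun k c => ((compat_W k).p _).trans (by
        simp [hρ, add_smul, Finset.sum_add_distrib])⟩

/-- All coordinates of the tuple `c` lie in the right submodule `H`. -/
def Sat {β : Type} {k : ℕ} (H : Submodule Rᵐᵒᵖ (β → R)) (c : β → W k) : Prop :=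
  ∀ j, (fun i => c i j) ∈ H

theorem atom {β : Type} [Fintype β] [DecidableEq β] (s t : LM.Term β) :
    ∃ H : Submodule Rᵐᵒᵖ (β → R), ∀ (k : ℕ) (c : β → W k),
      s.realize c = t.realize c ↔ Sat H c := by
  obtain ⟨ρ, hρ⟩ := term_lin s
  obtain ⟨σ, hσ⟩ := term_lin t
  refine ⟨{ carrier := {u | ∑ i, ρ i * u i = ∑ i, σ i * u i}
            zero_mem' := by simp
            add_mem' := fun {a b} ha hb => ?_
            smul_mem' := fun r a ha => ?_ }, fun k c => ?_⟩
  · simp only [Set.mem_ofPred_eq, Pi.add_apply, mul_add, Finset.sum_add_distrib] at ha hb ⊢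
    rw [ha, hb]
  · simp only [Set.mem_ofPred_eq, Pi.smul_apply, MulOpposite.smul_eq_mul_unop, ← mul_assoc,
      ← Finset.sum_mul] at ha ⊢
    rw [ha]
  · rw [hρ, hσ]
    have h : ∀ (ρ : β → R) (j : Fin k), (∑ i, ρ i • c i) j = ∑ i, ρ i * c i j := fun ρ j =>
      Finset.sum_apply j Finset.univ fun i => ρ i • c i
    refine funext_iff.trans (forall_congr' fun j => ?_)
    rw [h, h]
    rfl

theorem extend {β γ : Type} (ι : β → γ) {Φ : Set (Submodule Rᵐᵒᵖ (γ → R))} (hΦ : Φ.Finite) :
    ∃ Ψ : Set (Submodule Rᵐᵒᵖ (β → R)), Ψ.Finite ∧ ∀ (k m : ℕ), 1 ≤ k →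
      ∀ (c : β → W k) (d : γ → W m), (∀ H ∈ Ψ, Sat H c ↔ Sat H (d ∘ ι)) →
        ∃ b : γ → W k, b ∘ ι = c ∧ ∀ H ∈ Φ, Sat H b ↔ Sat H d := by
  let π : (γ → R) →ₗ[Rᵐᵒᵖ] (β → R) := LinearMap.funLeft Rᵐᵒᵖ R ι
  refine ⟨(fun S => (sInf S).map π) '' 𝒫 Φ, hΦ.powerset.image _, fun k m hk c d h => ?_⟩
  set S := {H ∈ Φ | Sat H d} with hS
  have hd : Sat (sInf S) d := fun j => Submodule.mem_sInf.2 fun H hH => hH.2 j
  have h1 : Sat ((sInf S).map π) c :=
    (h _ ⟨S, fun _ hH => hH.1, rfl⟩).2 fun j => ⟨_, hd j, rfl⟩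
  choose b₀ hb₀ hb₁ using h1
  let j₀ : Fin k := ⟨0, hk⟩
  obtain ⟨e, he, h2⟩ := avoid (sInf S ⊓ LinearMap.ker π)
    (T := {H ∈ Φ | ¬ sInf S ⊓ LinearMap.ker π ≤ H}) (hΦ.subset fun _ hH => hH.1)
    (fun _ hH => hH.2) (b₀ j₀)
  have hb : ∀ j, π (b₀ j + e) = fun i => c i j := fun j => by
    rw [map_add, hb₁, LinearMap.mem_ker.1 he.2, add_zero]
  have hK : ∀ j, b₀ j + e ∈ sInf S := fun j => Submodule.add_mem _ (hb₀ j) he.1
  refine ⟨fun i j => (b₀ j + e) i, funext fun i => funext fun j => congrFun (hb j) i,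
    fun H hH => ⟨fun h3 => ?_, fun h3 j => Submodule.mem_sInf.1 (hK j) H ⟨hH, h3⟩⟩⟩
  have h4 : sInf S ⊓ LinearMap.ker π ≤ H := by
    by_contra h4
    exact h2 H ⟨hH, h4⟩ (h3 j₀)
  have h5 := (h _ ⟨insert H S, Set.insert_subset hH fun _ hH => hH.1, rfl⟩).1 fun j =>
    ⟨b₀ j + e, by
      rw [sInf_insert]
      exact ⟨h3 j, hK j⟩, hb j⟩
  intro j
  obtain ⟨u, hu, hu'⟩ := h5 j
  rw [sInf_insert] at hu
  have h6 := h4 (x := (fun i => d i j) - u) ⟨Submodule.sub_mem _ (hd j) hu.2, by
    rw [SetLike.mem_coe, LinearMap.mem_ker, map_sub, hu']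
    exact sub_self _⟩
  simpa using H.add_mem h6 hu.1

theorem qe {α : Type} [Fintype α] [DecidableEq α] {l : ℕ} (φ : LM.BoundedFormula α l) :
    ∃ Φ : Set (Submodule Rᵐᵒᵖ (α ⊕ Fin l → R)), Φ.Finite ∧ ∀ (k m : ℕ), 1 ≤ k → 1 ≤ m →
      ∀ (v : α → W k) (xs : Fin l → W k) (v' : α → W m) (xs' : Fin l → W m),
        (∀ H ∈ Φ, Sat H (Sum.elim v xs) ↔ Sat H (Sum.elim v' xs')) →
        (φ.Realize v xs ↔ φ.Realize v' xs') := by
  induction φ with
  | falsum => exact ⟨∅, Set.finite_empty, fun _ _ _ _ _ _ _ _ _ => Iff.rfl⟩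
  | equal s t =>
    obtain ⟨H, hH⟩ := atom s t
    exact ⟨{H}, Set.finite_singleton _, fun k m _ _ v xs v' xs' h =>
      (hH k _).trans ((h H rfl).trans (hH m _).symm)⟩
  | rel r => exact r.elim
  | imp φ ψ ih ih' =>
    obtain ⟨Φ, h1, h2⟩ := ih
    obtain ⟨Ψ, h3, h4⟩ := ih'
    exact ⟨Φ ∪ Ψ, h1.union h3, fun k m hk hm v xs v' xs' h =>
      imp_congr (h2 k m hk hm v xs v' xs' fun H hH => h H (Or.inl hH))
        (h4 k m hk hm v xs v' xs' fun H hH => h H (Or.inr hH))⟩
  | @all l φ ih =>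
    obtain ⟨Φ, h1, h2⟩ := ih
    obtain ⟨Ψ, h3, h4⟩ := extend (Sum.map id Fin.castSucc : α ⊕ Fin l → α ⊕ Fin (l + 1)) h1
    have key : ∀ (k m : ℕ), 1 ≤ k → 1 ≤ m →
        ∀ (v : α → W k) (xs : Fin l → W k) (v' : α → W m) (xs' : Fin l → W m),
          (∀ H ∈ Ψ, Sat H (Sum.elim v xs) ↔ Sat H (Sum.elim v' xs')) →
          φ.all.Realize v xs → φ.all.Realize v' xs' := by
      intro k m hk hm v xs v' xs' h h5
      rw [BoundedFormula.realize_all] at h5 ⊢
      intro a
      have e1 : Sum.elim v' (Fin.snoc xs' a : Fin (l + 1) → W m) ∘ Sum.map id Fin.castSucc =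
          Sum.elim v' xs' := by
        funext i
        rcases i with i | i <;> simp
      obtain ⟨b, hb, h6⟩ := h4 k m hk (Sum.elim v xs) (Sum.elim v' (Fin.snoc xs' a))
        (by rwa [e1])
      have e2 : b = Sum.elim v (Fin.snoc xs (b (Sum.inr (Fin.last l)))) := by
        funext i
        rcases i with i | i
        · exact congrFun hb (Sum.inl i)
        · induction i using Fin.lastCases with
          | last => simp
          | cast i => simpa using congrFun hb (Sum.inr i)
      rw [e2] at h6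
      exact (h2 k m hk hm _ _ _ _ h6).1 (h5 _)
    exact ⟨Ψ, h3, fun k m hk hm v xs v' xs' h =>
      ⟨key k m hk hm v xs v' xs' h, key m k hm hk v' xs' v xs fun H hH => (h H hH).symm⟩⟩

theorem types {k m : ℕ} (hk : 1 ≤ k) (hm : 1 ≤ m) (n : ℕ) (a : Fin n → W k) :
    ∃ b : Fin n → W m, ∀ φ : LM.Formula (Fin n), φ.Realize a ↔ φ.Realize b := by
  obtain ⟨w, hw⟩ := code fun (j : Fin k) (i : Fin n ⊕ Fin 0) =>
    Sum.elim a (default : Fin 0 → W k) i j
  refine ⟨fun i _ => w (Sum.inl i), fun φ => ?_⟩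
  obtain ⟨Φ, -, h⟩ := qe φ
  refine h k m hk hm _ _ _ _ fun H _ => (hw H).symm.trans ?_
  have e : ∀ j : Fin m, (fun i => Sum.elim (fun (i : Fin n) => (fun _ => w (Sum.inl i) : W m))
      (default : Fin 0 → W m) i j) = w := fun j => by
    funext i
    rcases i with i | i
    · rfl
    · exact i.elim0
  exact ⟨fun h j => (e j).symm ▸ h, fun h => e ⟨0, hm⟩ ▸ h ⟨0, hm⟩⟩

theorem not_iso {k m : ℕ} (h : k ≠ m) : IsEmpty (W k ≃[LM] W m) := ⟨fun e => by
  obtain ⟨F, hF⟩ := exists_lin (compat_W k) (compat_W m) e.toHom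
  have hb : Function.Bijective F := by
    rw [show (F : W k → W m) = e from funext hF]
    exact e.bijective
  exact h (ibn (LinearEquiv.ofBijective F hb))⟩

theorem sum_bas {k : ℕ} (v : W k) : v = ∑ i, v i • bas k i := pi_eq_sum_univ' (R := R) v

theorem fg_W (k : ℕ) : Structure.FG LM (W k) := by
  refine Structure.fg_iff.2 ⟨Set.range (bas k), Set.finite_range _, eq_top_iff.2 fun v _ => ?_⟩
  set T := Substructure.closure LM (Set.range (bas k))
  have h0 : (0 : W k) ∈ T := T.fun_mem fz ![] fun i => i.elim0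
  have hp : ∀ x y : W k, x ∈ T → y ∈ T → x + y ∈ T := fun x y hx hy =>
    T.fun_mem fp ![x, y] (Fin.forall_fin_two.2 ⟨hx, hy⟩)
  rw [sum_bas v]
  refine Finset.sum_induction _ (· ∈ T) hp h0 fun i _ => ?_
  refine R_ind
    { carrier := {r | r • bas k i ∈ T}
      zero_mem' := by simpa using h0
      add_mem' := fun {a b} ha hb => by
        rw [Set.mem_ofPred_eq, add_smul]
        exact hp _ _ ha hb
      neg_mem' := fun {a} ha => by
        rw [Set.mem_ofPred_eq, neg_smul]
        exact T.fun_mem fn ![a • bas k i] (Fin.forall_fin_one.2 ha) } ?_ (fun g r hr => ?_) (v i)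
  · show (1 : R) • bas k i ∈ T
    rw [one_smul]
    exact Substructure.subset_closure ⟨i, rfl⟩
  · show (gen g * r) • bas k i ∈ T
    rw [mul_smul]
    exact T.fun_mem (fa g) ![r • bas k i] (Fin.forall_fin_one.2 hr)

/-- The identities: abelian groups with four additive operators and `xᵢ yⱼ = δᵢⱼ`. -/
def E : Set (LM.Term ℕ × LM.Term ℕ) :=
  {(fp.apply₂ (fp.apply₂ (var 0) (var 1)) (var 2), fp.apply₂ (var 0) (fp.apply₂ (var 1) (var 2))),
    (fp.apply₂ (var 0) (var 1), fp.apply₂ (var 1) (var 0)),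
    (fp.apply₂ fz.term (var 0), var 0), (fp.apply₂ (fn.apply₁ (var 0)) (var 0), fz.term)} ∪
  (Set.range fun g : Gen => ((fa g).apply₁ (fp.apply₂ (var 0) (var 1)),
    fp.apply₂ ((fa g).apply₁ (var 0)) ((fa g).apply₁ (var 1)))) ∪
  Set.range fun p : Bool × Bool => ((fa (true, p.1)).apply₁ ((fa (false, p.2)).apply₁ (var 0)),
    if p.1 = p.2 then var 0 else fz.term)

theorem E_finite : E.Finite :=
  ((Set.toFinite _).union (Set.finite_range _)).union (Set.finite_range _)

theorem sat_W (k : ℕ) : ∀ e ∈ E, ∀ v : ℕ → W k, e.1.realize v = e.2.realize v := by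
  rintro e (((rfl | rfl | rfl | rfl) | ⟨g, rfl⟩) | ⟨⟨i, j⟩, rfl⟩) v
  · exact add_assoc (v 0) (v 1) (v 2)
  · exact add_comm (v 0) (v 1)
  · exact zero_add (v 0)
  · exact neg_add_cancel (v 0)
  · exact smul_add (gen g) (v 0) (v 1)
  · show gen (true, i) • gen (false, j) • v 0 = _
    rw [smul_smul, gen_mul]
    dsimp only
    split_ifs
    · exact one_smul _ _
    · exact zero_smul _ _

theorem exists_module (A : Type) [LM.Structure A]
    (h : ∀ e ∈ E, ∀ v : ℕ → A, e.1.realize v = e.2.realize v) :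
    ∃ (_ : AddCommGroup A) (_ : Module R A), Compat A := by
  let v : A → A → A → ℕ → A := fun a b c n => if n = 0 then a else if n = 1 then b else c
  let _ : Zero A := ⟨constantMap fz⟩
  let _ : Neg A := ⟨fun a => funMap fn ![a]⟩
  let _ : Add A := ⟨fun a b => funMap fp ![a, b]⟩
  have h1 : ∀ a b c : A, a + b + c = a + (b + c) := fun a b c => by
    have := h _ (Or.inl (Or.inl (Or.inl rfl))) (v a b c)
    simp [v] at this
    exact this
  have h2 : ∀ a b : A, a + b = b + a := fun a b => by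
    have := h _ (Or.inl (Or.inl (Or.inr (Or.inl rfl)))) (v a b a)
    simp [v] at this
    exact this
  have h3 : ∀ a : A, 0 + a = a := fun a => by
    have := h _ (Or.inl (Or.inl (Or.inr (Or.inr (Or.inl rfl))))) (v a a a)
    simp [v] at this
    exact this
  have h4 : ∀ a : A, -a + a = 0 := fun a => by
    have := h _ (Or.inl (Or.inl (Or.inr (Or.inr (Or.inr rfl))))) (v a a a)
    simp [v] at this
    exact this
  let G : AddCommGroup A := { AddGroup.ofLeftAxioms h1 h3 h4 with add_comm := h2 }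
  have h5 : ∀ (g : Gen) (a b : A), funMap (fa g) ![a + b] =
      funMap (fa g) ![a] + funMap (fa g) ![b] := fun g a b => by
    have := h _ (Or.inl (Or.inr ⟨g, rfl⟩)) (v a b a)
    simp [v] at this
    exact this
  let φ : Gen → AddMonoid.End A := fun g => AddMonoidHom.mk' (fun a => funMap (fa g) ![a]) (h5 g)
  obtain ⟨ρ, hρ⟩ := exists_lift φ fun i j => by
    refine AddMonoidHom.ext fun a => ?_
    have := h _ (Or.inr ⟨(i, j), rfl⟩) (v a a a)
    dsimp only at this
    by_cases hij : i = j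
    · rw [if_pos hij]
      rw [if_pos hij] at this
      simp [v] at this
      exact this
    · rw [if_neg hij]
      simp [v, hij] at this
      exact this
  let _ : Module R A := Module.compHom A ρ
  refine ⟨G, inferInstance, fun w => ?_, fun w => ?_, fun g w => ?_, fun w => ?_⟩
  · exact congrArg (funMap fz) (Subsingleton.elim _ _)
  · exact congrArg (funMap fn) (funext (Fin.forall_fin_one.2 rfl))
  · show _ = ρ (gen g) (w 0)
    rw [hρ]
    exact congrArg (funMap (fa g)) (funext (Fin.forall_fin_one.2 rfl))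
  · exact congrArg (funMap fp) (funext (Fin.forall_fin_two.2 ⟨rfl, rfl⟩))

theorem free_W (k : ℕ) (A : Type) [LM.Structure A]
    (h : ∀ e ∈ E, ∀ v : ℕ → A, e.1.realize v = e.2.realize v) (a : Fin k → A) :
    ∃! f : W k →[LM] A, ∀ i, f (bas k i) = a i := by
  obtain ⟨_, _, hA⟩ := exists_module A h
  let F : W k →ₗ[R] A := Fintype.linearCombination R a
  have hF : ∀ i, F (bas k i) = a i := fun i =>
    (Fintype.linearCombination_apply_single R a i 1).trans (one_smul _ _)
  refine ⟨homOf (compat_W k) hA F, hF, fun f hf => ?_⟩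
  obtain ⟨F', hF'⟩ := exists_lin (compat_W k) hA f
  ext x
  show f x = F x
  rw [← hF', sum_bas x, map_sum, map_sum]
  refine Finset.sum_congr rfl fun i _ => ?_
  rw [map_smul, map_smul, hF', hf, hF]

end Pool.Agent.Lib.MP_c850b7_lc.H92
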