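import Mathlib

/-!
Cohn's ring `ℤ⟨x₀, x₁, y₀, y₁ | xᵢ yⱼ = δᵢⱼ⟩`: universal property, a trace with value `1` at `1`,
invariant basis number, and the avoidance of finitely many cosets of right submodules.
-/

set_option autoImplicit false

namespace Pool.Agent.Lib.MP_c850b7_lc.H92

open MulOpposite

/-- `(true, i)` is the letter `xᵢ` and `(false, i)` is the letter `yᵢ`. -/
abbrev Gen : Type := Bool × Bool

abbrev FA : Type := MonoidAlgebra ℤ (FreeMonoid Gen)

noncomputable def ltr (g : Gen) : FA := MonoidAlgebra.of ℤ _ (FreeMonoid.of g)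

inductive Rel : FA → FA → Prop
  | mk (i j : Bool) : Rel (ltr (true, i) * ltr (false, j)) (if i = j then 1 else 0)

abbrev R : Type := RingQuot Rel

noncomputable def gen (g : Gen) : R := RingQuot.mkRingHom Rel (ltr g)

theorem gen_mul (i j : Bool) : gen (true, i) * gen (false, j) = if i = j then 1 else 0 := by
  have := RingQuot.mkRingHom_rel (Rel.mk i j)
  rw [map_mul] at this
  rw [gen, gen, this]
  split_ifs <;> simp

theorem R_ind (T : AddSubgroup R) (h1 : (1 : R) ∈ T) (hg : ∀ g, ∀ r ∈ T, gen g * r ∈ T) (r : R) :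
    r ∈ T := by
  obtain ⟨a, rfl⟩ := RingQuot.mkRingHom_surjective Rel r
  induction a using MonoidAlgebra.induction_on with
  | of w =>
    induction w using FreeMonoid.inductionOn' with
    | one => rwa [map_one, map_one]
    | of_mul g w ih =>
      rw [map_mul, map_mul]
      exact hg g _ ih
  | add a b ha hb =>
    rw [map_add]
    exact T.add_mem ha hb
  | smul z a ha =>
    rw [map_zsmul]
    exact T.zsmul_mem ha z

theorem exists_lift {S : Type} [Ring S] (φ : Gen → S)
    (h : ∀ i j, φ (true, i) * φ (false, j) = if i = j then 1 else 0) :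
    ∃ ρ : R →+* S, ∀ g, ρ (gen g) = φ g := by
  let ρ₀ : FA →ₐ[ℤ] S := MonoidAlgebra.lift ℤ S (FreeMonoid Gen) (FreeMonoid.lift φ)
  have h0 : ∀ g, ρ₀ (ltr g) = φ g := fun g => by simp [ρ₀, ltr]
  have h1 : ∀ ⦃x y⦄, Rel x y → (ρ₀ : FA →+* S) x = (ρ₀ : FA →+* S) y := by
    rintro _ _ ⟨i, j⟩
    simp only [RingHom.coe_coe, map_mul, h0, h]
    split_ifs <;> simp
  exact ⟨RingQuot.lift ⟨(ρ₀ : FA →+* S), h1⟩, fun g => by
    rw [gen, RingQuot.lift_mkRingHom_apply]
    exact h0 g⟩

/-- The action of a letter on finite words: `yᵢ` puts `i` in front, `xᵢ` removes it. -/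
def step : Gen → Option (List Bool) → Option (List Bool)
  | (false, i), some z => some (i :: z)
  | (true, i), some (j :: z) => if i = j then some z else none
  | _, _ => none

def act : FreeMonoid Gen →* Function.End (Option (List Bool)) := FreeMonoid.lift step

theorem act_none (w : FreeMonoid Gen) : act w none = none := by
  induction w using FreeMonoid.inductionOn' with
  | one => rfl
  | of_mul g w ih =>
    rw [map_mul]
    show act (FreeMonoid.of g) (act w none) = none
    rw [ih]
    rcases g with ⟨_ | _, i⟩ <;> rfl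

def Fix (w : FreeMonoid Gen) : Prop := ∃ z : List Bool, act w (some z) = some z

theorem Fix.swap {u v : FreeMonoid Gen} (h : Fix (u * v)) : Fix (v * u) := by
  obtain ⟨z, hz⟩ := h
  rw [map_mul] at hz
  change act u (act v (some z)) = some z at hz
  rcases h1 : act v (some z) with _ | z'
  · rw [h1, act_none] at hz
    exact absurd hz (by simp)
  · refine ⟨z', ?_⟩
    rw [map_mul]
    change act v (act u (some z')) = some z'
    rw [← h1, hz]

open Classical in
noncomputable def tr : FA →ₗ[ℤ] ℤ :=
  (MonoidAlgebra.basis (FreeMonoid Gen) ℤ).constr ℤ fun w => if Fix w then 1 else 0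

open Classical in
theorem tr_of (w : FreeMonoid Gen) :
    tr (MonoidAlgebra.of ℤ _ w) = if Fix w then 1 else 0 := by
  have := (MonoidAlgebra.basis (FreeMonoid Gen) ℤ).constr_basis ℤ
    (fun w => if Fix w then (1 : ℤ) else 0) w
  simpa [tr] using this

theorem tr_comm (a b : FA) : tr (a * b) = tr (b * a) := by
  classical
  induction a using MonoidAlgebra.induction_on with
  | of u =>
    induction b using MonoidAlgebra.induction_on with
    | of v =>
      rw [← map_mul, ← map_mul, tr_of, tr_of]
      exact if_congr ⟨Fix.swap, Fix.swap⟩ rfl rfl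
    | add a b ha hb => rw [mul_add, add_mul, map_add, map_add, ha, hb]
    | smul z a ha => rw [mul_smul_comm, smul_mul_assoc, map_smul, map_smul, ha]
  | add a a' ha hb => rw [mul_add, add_mul, map_add, map_add, ha, hb]
  | smul z a ha => rw [mul_smul_comm, smul_mul_assoc, map_smul, map_smul, ha]

theorem tr_one : tr 1 = 1 := by
  have := tr_of 1
  rw [map_one, if_pos ⟨[], by rw [map_one]; rfl⟩] at this
  exact this

theorem tr_rel (u : FA) {a b : FA} (h : Rel a b) : tr (u * a) = tr (u * b) := by
  classical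
  obtain ⟨i, j⟩ := h
  induction u using MonoidAlgebra.induction_on with
  | of w =>
    have key : ∀ z : List Bool, act (w * (FreeMonoid.of (true, i) * FreeMonoid.of (false, j)))
        (some z) = act w (if i = j then some z else none) := fun z => by
      rw [map_mul, map_mul]
      rfl
    rw [ltr, ltr, ← map_mul, ← map_mul, tr_of]
    by_cases hij : i = j
    · rw [if_pos hij, mul_one, tr_of]
      refine if_congr (exists_congr fun z => ?_) rfl rfl
      rw [key, if_pos hij]
    · rw [if_neg hij, mul_zero, map_zero, if_neg]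
      rintro ⟨z, hz⟩
      rw [key, if_neg hij, act_none] at hz
      exact absurd hz (by simp)
  | add a a' ha hb => rw [add_mul, add_mul, map_add, map_add, ha, hb]
  | smul z a ha => rw [smul_mul_assoc, smul_mul_assoc, map_smul, map_smul, ha]

theorem exists_trace : ∃ t : R →+ ℤ, t 1 = 1 ∧ ∀ a b, t (a * b) = t (b * a) := by
  let c : RingCon FA :=
    { r := fun a b => ∀ u, tr (u * a) = tr (u * b)
      iseqv := ⟨fun _ _ => rfl, fun h u => (h u).symm, fun h h' u => (h u).trans (h' u)⟩
      add' := fun h h' u => by rw [mul_add, mul_add, map_add, map_add, h u, h' u]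
      mul' := fun {a b a' b'} h h' u => by
        rw [← mul_assoc, h', tr_comm, ← mul_assoc, h, mul_assoc, tr_comm, mul_assoc] }
  have h1 : ∀ ⦃x y⦄, Rel x y → c.mk' x = c.mk' y := fun x y h =>
    c.eq.2 fun u => tr_rel u h
  have h2 : (RingQuot.mkRingHom Rel).toAddMonoidHom.ker ≤ tr.toAddMonoidHom.ker := by
    intro a ha
    have h3 : RingQuot.mkRingHom Rel a = RingQuot.mkRingHom Rel 0 := by
      rw [map_zero]
      exact ha
    have h4 := congrArg (RingQuot.lift ⟨c.mk', h1⟩) h3
    rw [RingQuot.lift_mkRingHom_apply, RingQuot.lift_mkRingHom_apply] at h4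
    have h5 := c.eq.1 h4 1
    simpa using h5
  let t : R →+ ℤ := (RingQuot.mkRingHom Rel).toAddMonoidHom.liftOfSurjective
    (RingQuot.mkRingHom_surjective Rel) ⟨tr.toAddMonoidHom, h2⟩
  have ht : ∀ a, t (RingQuot.mkRingHom Rel a) = tr a := fun a =>
    AddMonoidHom.liftOfRightInverse_comp_apply _ _ _ _ a
  refine ⟨t, by rw [← map_one (RingQuot.mkRingHom Rel), ht, tr_one], fun a b => ?_⟩
  obtain ⟨a, rfl⟩ := RingQuot.mkRingHom_surjective Rel a
  obtain ⟨b, rfl⟩ := RingQuot.mkRingHom_surjective Rel b
  rw [← map_mul, ← map_mul, ht, ht, tr_comm]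

theorem ibn {k m : ℕ} (e : (Fin k → R) ≃ₗ[R] (Fin m → R)) : k = m := by
  obtain ⟨t, t1, tc⟩ := exists_trace
  have key : ∀ {k m : ℕ} (e : (Fin k → R) ≃ₗ[R] (Fin m → R)),
      ∑ i, ∑ j, t (e (Pi.single i 1) j * e.symm (Pi.single j 1) i) = k := by
    intro k m e
    have h : ∀ i, ∑ j, t (e (Pi.single i 1) j * e.symm (Pi.single j 1) i) = 1 := by
      intro i
      have h1 := e.symm_apply_apply (Pi.single i 1)
      rw [pi_eq_sum_univ' (e (Pi.single i 1)), map_sum] at h1
      have h2 := congrFun h1 i
      simp only [map_smul, Finset.sum_apply, Pi.smul_apply, smul_eq_mul, Pi.single_eq_same] at h2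
      rw [← map_sum, h2, t1]
    simp [h]
  have h1 := key e
  have h2 := key e.symm
  rw [LinearEquiv.symm_symm, Finset.sum_comm] at h2
  simp only [tc (e.symm _ _)] at h2
  exact_mod_cast h1.symm.trans h2

variable {β : Type}

theorem slot (i j : Bool) (c : β → R) :
    op (gen (false, j)) • op (gen (true, i)) • c = if i = j then c else 0 := by
  rw [smul_smul, ← op_mul, gen_mul]
  split_ifs <;> simp

theorem avoid (N : Submodule Rᵐᵒᵖ (β → R)) {T : Set (Submodule Rᵐᵒᵖ (β → R))} (hT : T.Finite) :
    (∀ H ∈ T, ¬ N ≤ H) → ∀ b : β → R, ∃ e ∈ N, ∀ H ∈ T, b + e ∉ H := by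
  induction T, hT using Set.Finite.induction_on with
  | empty => exact fun _ _ => ⟨0, N.zero_mem, fun _ h => h.elim⟩
  | @insert H T _ _ ih =>
    intro h b
    have ih' := ih fun H' hH' => h H' (Set.mem_insert_of_mem _ hH')
    by_cases h0 : ∃ e ∈ N, b + e ∈ H
    · obtain ⟨e, he, h1⟩ := h0
      obtain ⟨f, hf, h2⟩ := SetLike.not_le_iff_exists.1 (h H (Set.mem_insert _ _))
      obtain ⟨n, hn, h3⟩ := ih' (op (gen (false, true)) • (b + e))
      refine ⟨e + (op (gen (true, false)) • f + op (gen (true, true)) • n),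
        N.add_mem he (N.add_mem (N.smul_mem _ hf) (N.smul_mem _ hn)), ?_⟩
      rw [← add_assoc]
      rintro H' (rfl | hH') h4
      · have h5 := H'.smul_mem (op (gen (false, false))) ((H'.add_mem_iff_right h1).1 h4)
        rw [smul_add, slot, slot] at h5
        exact h2 (by simpa using h5)
      · have h5 := H'.smul_mem (op (gen (false, true))) h4
        rw [smul_add, smul_add _ _ (_ • n), slot, slot] at h5
        exact h3 H' hH' (by simpa using h5)
    · obtain ⟨e, he, h1⟩ := ih' b
      refine ⟨e, he, ?_⟩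
      rintro H' (rfl | hH')
      · exact fun h2 => h0 ⟨e, he, h2⟩
      · exact h1 H' hH'

theorem code : ∀ {k : ℕ} (u : Fin k → β → R), ∃ w : β → R,
    ∀ H : Submodule Rᵐᵒᵖ (β → R), w ∈ H ↔ ∀ j, u j ∈ H
  | 0, _ => ⟨0, fun H => ⟨fun _ j => j.elim0, fun _ => H.zero_mem⟩⟩
  | k + 1, u => by
    obtain ⟨w, hw⟩ := code fun j : Fin k => u j.succ
    refine ⟨op (gen (true, false)) • u 0 + op (gen (true, true)) • w, fun H => ?_⟩
    rw [Fin.forall_fin_succ, ← hw]
    refine ⟨fun h => ⟨?_, ?_⟩, fun h => H.add_mem (H.smul_mem _ h.1) (H.smul_mem _ h.2)⟩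
    · have h5 := H.smul_mem (op (gen (false, false))) h
      rw [smul_add, slot, slot] at h5
      simpa using h5
    · have h5 := H.smul_mem (op (gen (false, true))) h
      rw [smul_add, slot, slot] at h5
      simpa using h5

end Pool.Agent.Lib.MP_c850b7_lc.H92
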