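import Mathlib
import Pool.Agent.Lib.MP_c850b7_lc.Extend

/-!
Ultrapowers, the extension property, and quantifier elimination in the form: tuples that satisfy
the same equations satisfy the same formulas.
-/

set_option autoImplicit false

namespace Pool.Agent.Lib.MP_c850b7_lc

open FirstOrder FirstOrder.Language Filter

/-- A nonprincipal ultrafilter on the natural numbers. -/
noncomputable def UU : Ultrafilter ℕ := Filter.hyperfilter ℕ

theorem UU_le : (UU : Filter ℕ) ≤ atTop := Nat.hyperfilter_le_atTop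

theorem UU_ge (n : ℕ) : ∀ᶠ k in (UU : Filter ℕ), n ≤ k := UU_le (eventually_ge_atTop n)

/-- The ultrapower. -/
abbrev Pw (M : Type) : Type := (UU : Filter ℕ).Product (fun _ => M)

/-- The class of a sequence in the ultrapower. -/
noncomputable def mk {M : Type} (m : ℕ → M) : Pw M := (m : (UU : Filter ℕ).Product (fun _ => M))

theorem mk_eq {M : Type} (m m' : ℕ → M) : mk m = mk m' ↔ ∀ᶠ k in (UU : Filter ℕ), m k = m' k :=
  Quotient.eq''

theorem exists_mk {M : Type} (x : Pw M) : ∃ m, mk m = x := Quotient.exists_rep x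

variable {M N : Type} [LL.Structure M] [LL.Structure N]

theorem op_mk (o : Fin 4) (m : ℕ → M) : mk (fun k => op o (m k)) = op o (mk m) :=
  (Ultraproduct.funMap_cast (L := LL) (M := fun _ => M) (u := UU) (n := 1) ⟨o, rfl⟩
    (fun _ => m)).symm

theorem op_iter_mk (o : Fin 4) (n : ℕ) (m : ℕ → M) :
    mk (fun k => (op o)^[n] (m k)) = (op o)^[n] (mk m) := by
  induction n with
  | zero => rfl
  | succ n ih =>
    simp only [Function.iterate_succ_apply']
    rw [← ih, op_mk]

variable [Good M] [Good N]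

instance good_Pw : Good (Pw M) where
  ne := by
    obtain ⟨x⟩ := Good.ne (M := M)
    exact ⟨mk fun _ => x⟩
  up_dn x := by
    obtain ⟨m, rfl⟩ := exists_mk x
    unfold up dn
    rw [← op_mk, ← op_mk]
    congr 1
    funext k
    exact Good.up_dn _
  up_nx x := by
    obtain ⟨m, rfl⟩ := exists_mk x
    unfold up nx
    rw [← op_mk, ← op_mk, ← op_mk]
    congr 1
    funext k
    exact Good.up_nx _
  nx_pv x := by
    obtain ⟨m, rfl⟩ := exists_mk x
    unfold pv nx
    rw [← op_mk, ← op_mk]
    congr 1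
    funext k
    exact Good.nx_pv _
  pv_nx x := by
    obtain ⟨m, rfl⟩ := exists_mk x
    unfold pv nx
    rw [← op_mk, ← op_mk]
    congr 1
    funext k
    exact Good.pv_nx _
  nx_free n x := by
    obtain ⟨m, rfl⟩ := exists_mk x
    intro h
    have h1 : (op 2)^[n + 1] (mk m) = mk m := h
    rw [← op_iter_mk, mk_eq] at h1
    obtain ⟨k, hk⟩ := h1.exists
    exact Good.nx_free n _ hk
  up_free n x := by
    obtain ⟨m, rfl⟩ := exists_mk x
    intro h
    have h1 : (op 0)^[n + 1] (mk m) = mk m := h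
    rw [← op_iter_mk, mk_eq] at h1
    obtain ⟨k, hk⟩ := h1.exists
    exact Good.up_free n _ hk

theorem ev_mk (ν : NF) (m : ℕ → M) : mk (fun k => ev ν (m k)) = ev ν (mk m) :=
  ev_comm mk op_mk ν m

/-- The diagonal embedding into the ultrapower. -/
noncomputable def diag (M : Type) [LL.Structure M] [Good M] : M ↪ₑ[LL] Pw M where
  toFun x := mk fun _ => x
  map_formula' n φ x := by
    have : Nonempty M := Good.ne
    have := Ultraproduct.realize_formula_cast (L := LL) (M := fun _ => M) (u := UU) φ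
      (fun i _ => x i)
    rw [eventually_const] at this
    exact this

theorem diag_apply (x : M) : diag M x = mk fun _ => x := rfl

omit [Good M] [Good N] in
theorem elem_op (d : M ↪ₑ[LL] N) (o : Fin 4) (x : M) : d (op o x) = op o (d x) :=
  d.map_fun (n := 1) ⟨o, rfl⟩ (fun _ => x)

variable {ι : Type}

theorem Rel.elem {M' : Type} [LL.Structure M'] [Good M'] {a : ι → M} {b : ι → N} (h : Rel a b)
    (d : M ↪ₑ[LL] M') : Rel (d ∘ a) b := by
  intro i i' ν ν'
  rw [← h i i' ν ν']
  simp only [Function.comp]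
  rw [← ev_map d (elem_op d), ← ev_map d (elem_op d)]
  exact d.injective.eq_iff

theorem finite_stage {T : Type} (c : T → ℕ) (hc : Function.Injective c) (k : ℕ) :
    {t | c t ≤ k}.Finite :=
  (Set.finite_Iic k).preimage hc.injOn

theorem exists_child [Countable ι] (a : ι → M) (i : ι) :
    ∃ m : Pw M, up m = diag M (a i) ∧ ¬ Gen (diag M ∘ a) m := by
  obtain ⟨c, hc⟩ := Countable.exists_injective_nat (ι × NF)
  have hinf : (Set.range fun j : ℤ => sh j (dn (a i))).Infinite :=
    Set.infinite_range_of_injective fun j j' h => sh_inj h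
  have hex : ∀ k : ℕ, ∃ y ∈ Set.range fun j : ℤ => sh j (dn (a i)),
      y ∉ (fun t : ι × NF => ev t.2 (a t.1)) '' {t | c t ≤ k} := fun k =>
    hinf.exists_notMem_finite ((finite_stage c hc k).image _)
  choose m hm1 hm2 using hex
  refine ⟨mk m, ?_, ?_⟩
  · unfold up
    rw [← op_mk, diag_apply]
    congr 1
    funext k
    obtain ⟨j, hj⟩ := hm1 k
    rw [← hj]
    exact (up_sh j _).trans (Good.up_dn _)
  · rintro ⟨i', ν, h⟩
    simp only [Function.comp, diag_apply] at h
    rw [← ev_mk, mk_eq] at h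
    obtain ⟨k, hk1, hk2⟩ := (h.and (UU_ge (c (i', ν)))).exists
    exact hm2 k ⟨(i', ν), hk2, hk1.symm⟩

/-- Descend `k` steps along named children with prescribed indices. -/
def dsc : (ℕ → ℤ) → ℕ → M → M
  | _, 0, z => z
  | t, k + 1, z => sh (t 0) (dn (dsc (fun e => t (e + 1)) k z))

theorem up_dsc (t : ℕ → ℤ) (k : ℕ) (z : M) :
    up (dsc t (k + 1) z) = dsc (fun e => t (e + 1)) k z := by
  rw [dsc, up_sh, Good.up_dn]

theorem up_iter_dsc (t : ℕ → ℤ) (k : ℕ) (z : M) : up^[k] (dsc t k z) = z := by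
  induction k generalizing t with
  | zero => rfl
  | succ k ih => rw [Function.iterate_succ_apply, up_dsc, ih]

theorem Nm_dsc (t : ℕ → ℤ) (k e : ℕ) (h : e < k) (z : M) : Nm e (t e) (dsc t k z) := by
  induction e generalizing t k with
  | zero =>
    obtain ⟨k, rfl⟩ : ∃ k', k = k' + 1 := ⟨k - 1, by omega⟩
    unfold Nm
    simp only [Function.iterate_zero, id, zero_add, Function.iterate_one, up_dsc]
    rfl
  | succ e ih =>
    obtain ⟨k, rfl⟩ : ∃ k', k = k' + 1 := ⟨k - 1, by omega⟩
    have := ih (fun e => t (e + 1)) k (by omega)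
    unfold Nm at this ⊢
    rw [Function.iterate_succ_apply, Function.iterate_succ_apply (n := e + 1), up_dsc]
    exact this

theorem Nm_unique {e : ℕ} {j j' : ℤ} {x : M} (h : Nm e j x) (h' : Nm e j' x) : j = j' :=
  sh_inj (h.symm.trans h')

theorem Nm_iff (e : ℕ) (j : ℤ) (x : M) : Nm e j x ↔ ev (e, 0, []) x = ev (e + 1, 0, [j]) x := by
  simp only [Nm, ev, desc, sh_zero]

theorem Nm_mk (e : ℕ) (j : ℤ) (m : ℕ → M) :
    Nm e j (mk m) ↔ ∀ᶠ k in (UU : Filter ℕ), Nm e j (m k) := by
  simp only [Nm_iff]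
  rw [← ev_mk, ← ev_mk, mk_eq]

theorem exists_far [Countable ι] (a : ι → M) (n : N) :
    ∃ m : Pw M, (∀ e, ¬ Gen (diag M ∘ a) (up^[e] m)) ∧ ∀ e j, Nm e j m ↔ Nm e j n := by
  classical
  obtain ⟨c, hc⟩ := Countable.exists_injective_nat (ι × NF)
  have : Infinite M := infinite_of_good
  have hex : ∀ k : ℕ, ∃ y ∈ (Set.univ : Set M),
      y ∉ (fun s : ℕ × (ι × NF) => up^[s.1] (ev s.2.2 (a s.2.1))) ''
        (Set.Iic k ×ˢ {t | c t ≤ k}) := fun k =>
    Set.infinite_univ.exists_notMem_finite
      (((Set.finite_Iic k).prod (finite_stage c hc k)).image _)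
  choose z _ hz using hex
  let t : ℕ → ℕ → ℤ := fun k e => if h : ∃ j, Nm e j n then h.choose else k
  refine ⟨mk fun k => dsc (t k) k (z k), ?_, ?_⟩
  · rintro e ⟨i, ν, h⟩
    have h1 : (op 0)^[e] (mk fun k => dsc (t k) k (z k)) = ev ν (mk fun _ => a i) := h
    rw [← op_iter_mk, ← ev_mk, mk_eq] at h1
    obtain ⟨k, hk1, hk2, hk3⟩ := (h1.and ((UU_ge (c (i, ν))).and (UU_ge e))).exists
    refine hz k ⟨(k - e, (i, ν)), ⟨Nat.sub_le k e, hk2⟩, ?_⟩
    have hk1' : up^[e] (dsc (t k) k (z k)) = ev ν (a i) := hk1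
    simp only []
    rw [← hk1', ← Function.iterate_add_apply, Nat.sub_add_cancel hk3, up_iter_dsc]
  · intro e j
    rw [Nm_mk]
    constructor
    · intro h
      obtain ⟨k, hk1, hk2, hk3⟩ := (h.and ((UU_ge (e + 1)).and (UU_ge (j.natAbs + 1)))).exists
      have h1 := Nm_unique hk1 (Nm_dsc (t k) k e hk2 (z k))
      by_cases h2 : ∃ j, Nm e j n
      · simp only [t, dif_pos h2] at h1
        rw [h1]
        exact h2.choose_spec
      · simp only [t, dif_neg h2] at h1
        omega
    · intro h
      have h2 : ∃ j, Nm e j n := ⟨j, h⟩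
      filter_upwards [UU_ge (e + 1)] with k hk
      have h1 := Nm_dsc (t k) k e hk (z k)
      simp only [t, dif_pos h2] at h1
      rwa [Nm_unique h h2.choose_spec]

/-- The conclusion of the extension property. -/
def Extends (a : ι → M) (b : ι → N) (n : N) : Prop :=
  ∃ (M' : Type) (_ : LL.Structure M') (_ : Good M') (d : M ↪ₑ[LL] M') (m : M'),
    Rel (ext m (d ∘ a)) (ext n b)

theorem extends_near (k : ℕ) : ∀ (ι : Type) [Countable ι] (a : ι → M) (b : ι → N), Rel a b →
    ∀ n : N, Gen b (up^[k] n) → Extends a b n := by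
  induction k with
  | zero =>
    rintro ι _ a b h n ⟨i, ν, hn⟩
    simp only [Function.iterate_zero, id] at hn
    subst hn
    exact ⟨M, inferInstance, inferInstance, ElementaryEmbedding.refl LL M, ev ν (a i),
      extA h i ν⟩
  | succ k ih =>
    intro ι _ a b h n hn
    rw [Function.iterate_succ_apply] at hn
    obtain ⟨M', _, _, d, m, hm⟩ := ih ι a b h (up n) hn
    let r : Option ι → Option (Option ι) := fun o => o.map some
    by_cases hg : Gen (ext (up n) b) n
    · obtain ⟨i, ν, hi⟩ := hg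
      refine ⟨M', inferInstance, inferInstance, d, ev ν (ext m (d ∘ a) i), ?_⟩
      have h1 := (extA hm i ν).reindex r
      rw [← hi] at h1
      convert h1 using 1 <;> (funext o; cases o <;> rfl)
    · obtain ⟨m', h1, h2⟩ := exists_child (ext m (d ∘ a)) none
      have h3 := (extB (hm.elem (diag M')) none h1 rfl h2 hg).reindex r
      refine ⟨Pw M', inferInstance, inferInstance, (diag M').comp d, m', ?_⟩
      convert h3 using 1 <;> (funext o; cases o <;> rfl)

theorem extends_all [Countable ι] {a : ι → M} {b : ι → N} (h : Rel a b) (n : N) :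
    Extends a b n := by
  by_cases hn : ∃ k, Gen b (up^[k] n)
  · obtain ⟨k, hk⟩ := hn
    exact extends_near k ι a b h n hk
  · push Not at hn
    obtain ⟨m, h1, h2⟩ := exists_far a n
    exact ⟨Pw M, inferInstance, inferInstance, diag M, m, extC (h.elem (diag M)) h1 hn h2⟩

/-- Reindexing for the quantifier step. -/
def rix {α : Type} {n : ℕ} : α ⊕ Fin (n + 1) → Option (α ⊕ Fin n)
  | Sum.inl a => some (Sum.inl a)
  | Sum.inr i => Fin.lastCases none (fun j => some (Sum.inr j)) i

theorem ext_rix {α X : Type} {n : ℕ} (v : α → X) (xs : Fin n → X) (x : X) :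
    ext x (Sum.elim v xs) ∘ rix = Sum.elim v (Fin.snoc xs x) := by
  funext s
  rcases s with a | i
  · rfl
  · induction i using Fin.lastCases with
    | last => simp [rix, ext]
    | cast j => simp [rix, ext]

theorem qe {α : Type} [Countable α] {n : ℕ} (φ : LL.BoundedFormula α n) :
    ∀ (M N : Type) [LL.Structure M] [LL.Structure N] [Good M] [Good N] (v : α → M)
      (xs : Fin n → M) (w : α → N) (ys : Fin n → N), Rel (Sum.elim v xs) (Sum.elim w ys) →
      (φ.Realize v xs ↔ φ.Realize w ys) := by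
  induction φ with
  | falsum =>
    intros
    rfl
  | equal t₁ t₂ =>
    intro M N _ _ _ _ v xs w ys h
    obtain ⟨i, ν, h1, h2⟩ := term_nf (M := M) (N := N) t₁
    obtain ⟨i', ν', h3, h4⟩ := term_nf (M := M) (N := N) t₂
    simp only [BoundedFormula.Realize]
    rw [h1, h2, h3, h4]
    exact h _ _ _ _
  | rel R ts => exact R.elim
  | imp φ ψ ih1 ih2 =>
    intro M N _ _ _ _ v xs w ys h
    simp only [BoundedFormula.Realize]
    rw [ih1 M N v xs w ys h, ih2 M N v xs w ys h]
  | all φ ih =>
    have aux : ∀ (M N : Type) [LL.Structure M] [LL.Structure N] [Good M] [Good N] (v : α → M)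
        (xs : Fin _ → M) (w : α → N) (ys : Fin _ → N), Rel (Sum.elim v xs) (Sum.elim w ys) →
        (φ.all.Realize v xs → φ.all.Realize w ys) := by
      intro M N _ _ _ _ v xs w ys h hφ
      rw [BoundedFormula.realize_all]
      intro y
      obtain ⟨M', _, _, d, m, hm⟩ := extends_all h y
      have h1 := (d.map_boundedFormula φ.all v xs).mpr hφ
      rw [BoundedFormula.realize_all] at h1
      have h2 := hm.reindex rix
      rw [Sum.comp_elim, ext_rix, ext_rix] at h2
      exact (ih M' N _ _ _ _ h2).mp (h1 m)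
    intro M N _ _ _ _ v xs w ys h
    exact ⟨aux M N v xs w ys h, aux N M w ys v xs h.symm⟩

theorem qe_formula {α : Type} [Countable α] (φ : LL.Formula α) (v : α → M) (w : α → N)
    (h : Rel v w) : φ.Realize v ↔ φ.Realize w := by
  unfold Formula.Realize
  apply qe φ M N
  let r : α ⊕ Fin 0 → α := Sum.elim id Fin.elim0
  have := h.reindex r
  convert this using 1 <;>
  · funext s
    rcases s with a | i
    · rfl
    · exact i.elim0

end Pool.Agent.Lib.MP_c850b7_lc
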