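import Mathlib
import Pool.Agent.Lib.MP_c850b7_lc.Ultra

/-!
The concrete model and the two one-generated subalgebras.
-/

set_option autoImplicit false

namespace Pool.Agent.Lib.MP_c850b7_lc

open FirstOrder FirstOrder.Language

/-- The ambient algebra: a level and an address. -/
def UM : Type := ℤ × (ℕ → ℤ × Bool)

/-- Put a new first letter on an address. -/
def cons0 (z : ℤ × Bool) (c : ℕ → ℤ × Bool) : ℕ → ℤ × Bool
  | 0 => z
  | e + 1 => c e

/-- The operations of the ambient algebra. -/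
def opU (o : Fin 4) (x : UM) : UM :=
  match o with
  | 0 => (x.1 + 1, fun e => x.2 (e + 1))
  | 1 => (x.1 - 1, cons0 (0, true) x.2)
  | 2 => (x.1, cons0 ((x.2 0).1 + 1, (x.2 0).2) fun e => x.2 (e + 1))
  | 3 => (x.1, cons0 ((x.2 0).1 - 1, (x.2 0).2) fun e => x.2 (e + 1))

instance structUM : LL.Structure UM where
  funMap f x := opU f.1 (x ⟨0, by have := f.2; omega⟩)
  RelMap r := r.elim

theorem up_U (x : UM) : up x = (x.1 + 1, fun e => x.2 (e + 1)) := rfl

theorem dn_U (x : UM) : dn x = (x.1 - 1, cons0 (0, true) x.2) := rfl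

theorem nx_U (x : UM) :
    nx x = (x.1, cons0 ((x.2 0).1 + 1, (x.2 0).2) fun e => x.2 (e + 1)) := rfl

theorem pv_U (x : UM) :
    pv x = (x.1, cons0 ((x.2 0).1 - 1, (x.2 0).2) fun e => x.2 (e + 1)) := rfl

theorem up_iter_fst (n : ℕ) (x : UM) : (up^[n] x).1 = x.1 + n := by
  induction n with
  | zero => simp
  | succ n ih =>
    rw [Function.iterate_succ_apply', up_U]
    simp only [ih]
    push_cast
    ring

theorem nx_iter_idx (n : ℕ) (x : UM) : ((nx^[n] x).2 0).1 = (x.2 0).1 + n := by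
  induction n with
  | zero => simp
  | succ n ih =>
    rw [Function.iterate_succ_apply', nx_U]
    simp only [cons0, ih]
    push_cast
    ring

instance good_UM : Good UM where
  ne := ⟨(0, fun _ => (0, true))⟩
  up_dn x := by
    rw [up_U, dn_U]
    refine Prod.ext (by simp) ?_
    rfl
  up_nx x := rfl
  nx_pv x := by
    rw [nx_U, pv_U]
    refine Prod.ext rfl ?_
    funext e
    cases e with
    | zero => simp [cons0]
    | succ e => rfl
  pv_nx x := by
    rw [pv_U, nx_U]
    refine Prod.ext rfl ?_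
    funext e
    cases e with
    | zero => simp [cons0]
    | succ e => rfl
  nx_free n x h := by
    have := nx_iter_idx (n + 1) x
    rw [h] at this
    omega
  up_free n x h := by
    have := up_iter_fst (n + 1) x
    rw [h] at this
    omega

theorem sh_flag (j : ℤ) (x : UM) : ((sh j x).2 0).2 = (x.2 0).2 := by
  induction j using Int.induction_on with
  | zero => rw [sh_zero]
  | succ i ih =>
    rw [add_comm, sh_add, sh_one, nx_U]
    exact ih
  | pred i ih =>
    rw [sub_eq_neg_add, sh_add, sh_neg_one, pv_U]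
    exact ih

theorem flag_of_Nm {j : ℤ} {x : UM} (h : Nm 0 j x) : (x.2 0).2 = true := by
  unfold Nm at h
  simp only [Function.iterate_zero, id] at h
  rw [h, sh_flag]
  rfl

section Sub

variable {M N : Type} [LL.Structure M] [LL.Structure N]

theorem emb_op (d : M ↪[LL] N) (o : Fin 4) (x : M) : d (op o x) = op o (d x) :=
  d.map_fun (n := 1) ⟨o, rfl⟩ (fun _ => x)

theorem op_iter_map (d : M → N) (o : Fin 4) (hd : ∀ x, d (op o x) = op o (d x)) (n : ℕ) (x : M) :
    d ((op o)^[n] x) = (op o)^[n] (d x) := by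
  induction n with
  | zero => rfl
  | succ n ih => rw [Function.iterate_succ_apply', Function.iterate_succ_apply', hd, ih]

theorem good_of_emb [Good N] (d : M ↪[LL] N) (h : Nonempty M) : Good M where
  ne := h
  up_dn x := d.injective (by
    unfold up dn
    rw [emb_op, emb_op]
    exact Good.up_dn _)
  up_nx x := d.injective (by
    unfold up nx
    rw [emb_op, emb_op, emb_op]
    exact Good.up_nx _)
  nx_pv x := d.injective (by
    unfold nx pv
    rw [emb_op, emb_op]
    exact Good.nx_pv _)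
  pv_nx x := d.injective (by
    unfold nx pv
    rw [emb_op, emb_op]
    exact Good.pv_nx _)
  nx_free n x h := by
    have h1 := congrArg d h
    rw [show (nx : M → M) = op 2 from rfl, op_iter_map d 2 (emb_op d 2)] at h1
    exact Good.nx_free n _ h1
  up_free n x h := by
    have h1 := congrArg d h
    rw [show (up : M → M) = op 0 from rfl, op_iter_map d 0 (emb_op d 0)] at h1
    exact Good.up_free n _ h1

variable [Good M] [Good N]

theorem rel_of_map {ι : Type} (d : M → N) (hd : ∀ o x, d (op o x) = op o (d x))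
    (hi : Function.Injective d) (a : ι → M) : Rel a (d ∘ a) := by
  intro i i' ν ν'
  simp only [Function.comp]
  rw [← ev_map d hd, ← ev_map d hd]
  exact hi.eq_iff.symm

theorem Nm_map (d : M ↪[LL] N) (e : ℕ) (j : ℤ) (x : M) : Nm e j (d x) ↔ Nm e j x := by
  rw [Nm_iff, Nm_iff, ← ev_map d (emb_op d), ← ev_map d (emb_op d)]
  exact d.injective.eq_iff

theorem mem_closure_single {a x : M} (h : x ∈ Substructure.closure LL ({a} : Set M)) :
    ∃ ν, x = ev ν a := by
  refine Substructure.closure_induction (p := fun x => ∃ ν, x = ev ν a) h ?_ ?_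
  · rintro x rfl
    exact ⟨_, (ev_id _).symm⟩
  · intro n f x hx
    obtain ⟨ν, hν⟩ := hx ⟨0, by have := f.2; omega⟩
    refine ⟨opN f.1 ν, ?_⟩
    rw [funMap_eq, hν, ev_opN]

theorem ev_mem (S : LL.Substructure M) {x : M} (hx : x ∈ S) (ν : NF) : ev ν x ∈ S := by
  have : Good S := good_of_emb S.subtype ⟨⟨x, hx⟩⟩
  have h := ev_map S.subtype (emb_op S.subtype) ν ⟨x, hx⟩
  have h2 : ev ν x = S.subtype (ev ν ⟨x, hx⟩) := h.symm
  rw [h2]
  exact (ev ν (⟨x, hx⟩ : S)).2

theorem Nm_of_cons (k : ℕ) (j i : ℤ) (D : List ℤ) (x : M) : Nm 0 i (ev (k, j, i :: D) x) := by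
  unfold Nm
  simp only [Function.iterate_zero, id, zero_add, Function.iterate_one, ev, up_desc_cons]
  rfl

end Sub

/-- The spine. -/
def sp (e : ℕ) : UM := ((e : ℤ), fun i => (0, decide ((i + e) % 3 = 2)))

theorem up_sp (e : ℕ) : up (sp e) = sp (e + 1) := by
  rw [up_U]
  refine Prod.ext (by simp [sp]) ?_
  funext i
  simp only [sp]
  rw [show i + 1 + e = i + (e + 1) by ring]

theorem up_iter_sp (k e : ℕ) : up^[k] (sp e) = sp (e + k) := by
  induction k with
  | zero => rfl
  | succ k ih => rw [Function.iterate_succ_apply', ih, up_sp, add_assoc]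

theorem not_Nm_sp0 (j : ℤ) : ¬ Nm 0 j (sp 0) := fun h => by
  have := flag_of_Nm h
  simp [sp] at this

theorem not_Nm_sp1 (j : ℤ) : ¬ Nm 0 j (sp 1) := fun h => by
  have := flag_of_Nm h
  simp [sp] at this

theorem Nm_sp2 : Nm 0 0 (sp 2) := by
  unfold Nm
  simp only [Function.iterate_zero, id, zero_add, Function.iterate_one, sh_zero, up_sp, dn_U]
  refine Prod.ext (by simp [sp]) ?_
  funext i
  cases i with
  | zero => simp [sp, cons0]
  | succ i =>
    simp only [sp, cons0]

/-- The subalgebra generated by a point of the spine. -/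
def HA (e : ℕ) : LL.Substructure UM := Substructure.closure LL {sp e}

theorem sp_mem (e : ℕ) : sp e ∈ HA e := Substructure.subset_closure rfl

/-- The generator. -/
def gen (e : ℕ) : HA e := ⟨sp e, sp_mem e⟩

instance good_HA (e : ℕ) : Good (HA e) := good_of_emb (HA e).subtype ⟨gen e⟩

theorem exists_ev (e : ℕ) (y : HA e) : ∃ ν, y = ev ν (gen e) := by
  obtain ⟨ν, h⟩ := mem_closure_single y.2
  refine ⟨ν, (HA e).subtype.injective ?_⟩
  rw [ev_map _ (emb_op (HA e).subtype)]
  exact h

theorem closure_gen (e : ℕ) : Substructure.closure LL ({gen e} : Set (HA e)) = ⊤ := by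
  rw [eq_top_iff]
  intro y _
  obtain ⟨ν, rfl⟩ := exists_ev e y
  exact ev_mem (Substructure.closure LL ({gen e} : Set (HA e)))
    (Substructure.subset_closure (Set.mem_singleton _)) ν

theorem fg_HA (e : ℕ) : Structure.FG LL (HA e) :=
  Structure.fg_iff.mpr ⟨{gen e}, Set.finite_singleton _, closure_gen e⟩

theorem sp_mem_add (e k : ℕ) : sp (e + k) ∈ HA e := by
  have := ev_mem (HA e) (sp_mem e) (k, 0, [])
  simpa [ev, desc, sh_zero, up_iter_sp] using this

theorem HA_le : HA 1 ≤ HA 0 := by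
  intro x hx
  obtain ⟨ν, rfl⟩ := mem_closure_single hx
  exact ev_mem _ (sp_mem_add 0 1) ν

/-- The level shift. -/
def tau (x : UM) : UM := (x.1 + 3, x.2)

theorem tau_op (o : Fin 4) (x : UM) : tau (op o x) = op o (tau x) := by
  match o with
  | 0 => exact Prod.ext (by change x.1 + 1 + 3 = x.1 + 3 + 1; ring) rfl
  | 1 => exact Prod.ext (by change x.1 - 1 + 3 = x.1 + 3 - 1; ring) rfl
  | 2 => rfl
  | 3 => rfl

theorem tau_inj : Function.Injective tau := by
  intro x y h
  have h1 : x.1 + 3 = y.1 + 3 := congrArg Prod.fst h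
  have h2 : (tau x).2 = (tau y).2 := congrArg Prod.snd h
  exact Prod.ext (by omega) h2

theorem tau_sp : tau (sp 0) = sp (1 + 2) := by
  refine Prod.ext (by simp [tau, sp]) ?_
  funext i
  simp [tau, sp]

theorem tau_mem {x : UM} (hx : x ∈ HA 0) : tau x ∈ HA 1 := by
  obtain ⟨ν, rfl⟩ := mem_closure_single hx
  rw [ev_map tau tau_op, tau_sp]
  exact ev_mem _ (sp_mem_add 1 2) ν

theorem types01 (n : ℕ) (a : Fin n → HA 0) :
    ∃ b : Fin n → HA 1, ∀ φ : LL.Formula (Fin n), φ.Realize a ↔ φ.Realize b := by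
  let d : HA 0 → HA 1 := fun x => ⟨tau x.1, tau_mem x.2⟩
  refine ⟨d ∘ a, fun φ => qe_formula φ _ _ (rel_of_map d ?_ ?_ a)⟩
  · intro o x
    exact Subtype.ext (tau_op o x.1)
  · intro x y h
    exact Subtype.ext (tau_inj (congrArg Subtype.val h))

theorem types10 (n : ℕ) (b : Fin n → HA 1) :
    ∃ a : Fin n → HA 0, ∀ φ : LL.Formula (Fin n), φ.Realize a ↔ φ.Realize b := by
  let d : HA 1 → HA 0 := fun x => ⟨x.1, HA_le x.2⟩
  refine ⟨d ∘ b, fun φ => (qe_formula φ _ _ (rel_of_map d ?_ ?_ b)).symm⟩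
  · intro o x
    rfl
  · intro x y h
    have h2 : (d x).1 = (d y).1 := congrArg Subtype.val h
    exact Subtype.ext h2

theorem not_iso : IsEmpty (HA 0 ≃[LL] HA 1) := by
  refine ⟨fun σ => ?_⟩
  let d : HA 0 ↪[LL] UM := (HA 1).subtype.comp σ.toEmbedding
  have hd : ∀ e j, Nm e j (d (gen 0)) ↔ Nm e j (sp 0) := fun e j =>
    (Nm_map d e j _).trans (Nm_map (HA 0).subtype e j (gen 0)).symm
  obtain ⟨⟨k, j, D⟩, h1⟩ : ∃ ν, d (gen 0) = ev ν (sp 1) := mem_closure_single (σ (gen 0)).2
  obtain ⟨⟨k', j', D'⟩, h2⟩ : ∃ μ, sp 1 = ev μ (d (gen 0)) := by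
    obtain ⟨μ, hμ⟩ := exists_ev 0 (σ.symm (gen 1))
    refine ⟨μ, ?_⟩
    rw [← ev_map d (emb_op d), ← hμ]
    change sp 1 = (σ (σ.symm (gen 1))).1
    rw [σ.apply_symm_apply]
    rfl
  rcases D with _ | ⟨i, D⟩
  · rcases D' with _ | ⟨i', D'⟩
    · have h3 := congrArg up h2
      rw [h1] at h3
      simp only [ev, desc, up_sh] at h3 h1
      rw [← Function.iterate_succ_apply' up k', Function.iterate_succ_apply, up_sh,
        ← Function.iterate_succ_apply up k', ← Function.iterate_add_apply] at h3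
      have h4 : up^[1] (sp 1) = up^[k'.succ + k] (sp 1) := h3
      have h5 := up_iter_inj h4
      have h6 : k = 0 := by omega
      subst h6
      have h7 : Nm 1 0 (d (gen 0)) := by
        have := Nm_sp2
        unfold Nm at this ⊢
        rw [h1]
        simp only [Function.iterate_succ_apply, Function.iterate_zero, id, up_sh, up_sp] at this ⊢
        exact this
      have h8 := (hd 1 0).mp h7
      apply not_Nm_sp1 0
      unfold Nm at h8 ⊢
      simp only [Function.iterate_succ_apply, Function.iterate_zero, id, up_sp] at h8 ⊢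
      exact h8
    · exact not_Nm_sp1 i' (h2 ▸ Nm_of_cons k' j' i' D' _)
  · exact not_Nm_sp0 i ((hd 0 i).mp (h1 ▸ Nm_of_cons k j i D _))

theorem LL_algebraic : LL.IsAlgebraic := fun _ => inferInstanceAs (IsEmpty Empty)

theorem LL_finite : Finite LL.Symbols := by
  refine Finite.of_injective (β := Fin 4) (fun s => match s with
    | Sum.inl f => f.2.1
    | Sum.inr r => r.2.elim) ?_
  rintro (⟨n, o, rfl⟩ | ⟨n, r⟩) (⟨n', o', rfl⟩ | ⟨n', r'⟩) h
  · simp only [] at h
    rw [h]
  · exact r'.elim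
  · exact r.elim
  · exact r.elim

end Pool.Agent.Lib.MP_c850b7_lc
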